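import Pool.Agent.helper35.LV.Spec

/-!
# Project lv, HX2: one step
-/

set_option autoImplicit false

namespace Pool.Agent.LV

open Matrix Pool.Agent.H48SL Pool.Agent.UG

theorem HX2_mul (i j k : Fin 3) (hij : i ≠ j) (hjk : j ≠ k) (hik : i ≠ k) (a c e a' c' e' : ℚ) :
    nn i j k a c e * nn i j k a' c' e' = nn i j k (a + a') (c + c') (e + e' + a * c') := by
  unfold nn
  have h1 : Matrix.single i j a * Matrix.single i j a' = (0 : MQ 3) := Matrix.single_mul_single_of_ne _ _ _ _ hij.symm _
  have h2 : Matrix.single i j a * Matrix.single j k c' = (Matrix.single i k (a * c') : MQ 3) :=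
    Matrix.single_mul_single_same _ _ _ _ _
  have h3 : Matrix.single i j a * Matrix.single i k e' = (0 : MQ 3) := Matrix.single_mul_single_of_ne _ _ _ _ hij.symm _
  have h4 : Matrix.single j k c * Matrix.single i j a' = (0 : MQ 3) := Matrix.single_mul_single_of_ne _ _ _ _ hik.symm _
  have h5 : Matrix.single j k c * Matrix.single j k c' = (0 : MQ 3) := Matrix.single_mul_single_of_ne _ _ _ _ hjk.symm _
  have h6 : Matrix.single j k c * Matrix.single i k e' = (0 : MQ 3) := Matrix.single_mul_single_of_ne _ _ _ _ hik.symm _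
  have h7 : Matrix.single i k e * Matrix.single i j a' = (0 : MQ 3) := Matrix.single_mul_single_of_ne _ _ _ _ hik.symm _
  have h8 : Matrix.single i k e * Matrix.single j k c' = (0 : MQ 3) := Matrix.single_mul_single_of_ne _ _ _ _ hjk.symm _
  have h9 : Matrix.single i k e * Matrix.single i k e' = (0 : MQ 3) := Matrix.single_mul_single_of_ne _ _ _ _ hik.symm _
  rw [Matrix.single_add, Matrix.single_add, Matrix.single_add, Matrix.single_add]
  simp only [add_mul, mul_add, one_mul, mul_one, h1, h2, h3, h4, h5, h6, h7, h8, h9]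
  abel

theorem HX2_ij (i j k : Fin 3) (r : ℚ) : xm i j r = nn i j k r 0 0 := by
  unfold xm nn
  rw [Matrix.single_zero, Matrix.single_zero, add_zero, add_zero]

theorem HX2_jk (i j k : Fin 3) (r : ℚ) : xm j k r = nn i j k 0 r 0 := by
  unfold xm nn
  rw [Matrix.single_zero, Matrix.single_zero, add_zero, add_zero]

theorem HX2_ik (i j k : Fin 3) (r : ℚ) : xm i k r = nn i j k 0 0 r := by
  unfold xm nn
  rw [Matrix.single_zero, Matrix.single_zero, add_zero, add_zero]

theorem HX2 (hHX1 : HX1_stmt) : HX2_stmt := by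
  intro S hS i j k hij hjk hik a c e ha hc hn m r y
  have hC := hHX1 S hS i j k hij hjk hik a c e hn m
  refine ⟨?_, ?_⟩
  · intro hr
    refine ⟨_, hC, ?_⟩
    rw [HX2_jk i j k r, HX2_ik i j k, HX2_ij i j k, HX2_ik i j k, HX2_mul i j k hij hjk hik,
      HX2_mul i j k hij hjk hik, HX2_mul i j k hij hjk hik, hr]
    congr 1
    · field_simp
      ring
    · ring
    · field_simp
      ring
  · intro hr
    refine ⟨_, hC, ?_⟩
    rw [HX2_ij i j k r, HX2_ik i j k, HX2_jk i j k, HX2_ik i j k, HX2_mul i j k hij hjk hik,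
      HX2_mul i j k hij hjk hik, HX2_mul i j k hij hjk hik, hr]
    congr 1
    · ring
    · field_simp
      ring
    · field_simp
      ring

end Pool.Agent.LV
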